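import Pool.Agent.Helper23.EC.DGoalsM

set_option autoImplicit false

open MeasureTheory Filter Topology Set

namespace Pool.Agent.Helper3.EC.D_N13

open EC237

theorem inCl_five (k : ℤ × ℤ) : InCl 5 k ↔ InCl (-1) k := by
  unfold InCl
  omega

theorem pS_five (y : ℝ) (m1 m2 al1 al2 : ℤ) (i : ℕ) :
    pS y 5 5 m1 m2 al1 al2 i = pS y (-1) (-1) m1 m2 al1 al2 i := by
  unfold pS
  refine tsum_congr fun q => ?_
  by_cases h : InCl (-1) (q.1, m1) ∧ InCl (-1) (q.2, m2)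
  · rw [if_pos h, if_pos ⟨(inCl_five _).mpr h.1, (inCl_five _).mpr h.2⟩]
  · rw [if_neg h, if_neg]
    exact fun h' => h ⟨(inCl_five _).mp h'.1, (inCl_five _).mp h'.2⟩

theorem hsc {f g : ℤ × ℤ → ℂ} {a : ℂ} (hf : HasSum f a) (h : ∀ m, f m = g m) : HasSum g a :=
  (funext h : f = g) ▸ hf

theorem hasSum_swap {f : ℤ × ℤ → ℂ} {a : ℂ} (h : HasSum f a) :
    HasSum (fun m : ℤ × ℤ => f (m.2, m.1)) a :=
  ((Equiv.prodComm ℤ ℤ).hasSum_iff (f := f)).mpr h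

theorem hasSum_neg_arg {f : ℤ × ℤ → ℂ} {a : ℂ} (h : HasSum f a) :
    HasSum (fun m : ℤ × ℤ => f (-m.1, -m.2)) a :=
  ((Equiv.neg (ℤ × ℤ)).hasSum_iff (f := f)).mpr h

theorem thm (hN5 : EC237.N5) (hN11 : EC237.N11) : EC237.N13 := by
  intro y hy
  have h11 : HasSum (fun m : ℤ × ℤ => pS y 1 1 m.1 m.2 1 (-1) 1) (PiS (y:ℂ) 1) :=
    (hN11 y hy 1 1 1 (-1) (by norm_num) (by norm_num)).2
  have h13 : HasSum (fun m : ℤ × ℤ => pS y 1 3 m.1 m.2 1 (-1) 1) (PiS (y:ℂ) 3) :=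
    (hN11 y hy 1 3 1 (-1) (by norm_num) (by norm_num)).2
  have hsw : ∀ (r1 r2 m1 m2 al1 al2 : ℤ),
      pS y r2 r1 m2 m1 al2 al1 1 = -pS y r1 r2 m1 m2 al1 al2 1 :=
    fun r1 r2 m1 m2 al1 al2 => ((hN5 y hy r1 r2 m1 m2 al1 al2).1 1).1
  have hng : ∀ (r1 r2 m1 m2 al1 al2 : ℤ),
      pS y (-r1) (-r2) (-m1) (-m2) al1 al2 1 = pS y r1 r2 m1 m2 (-al1) (-al2) 1 :=
    fun r1 r2 m1 m2 al1 al2 => (hN5 y hy r1 r2 m1 m2 al1 al2).2.1 1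
  have hli : ∀ (r1 r2 m1 m2 al1 al2 : ℤ), pS y r1 r2 m1 m2 al1 al2 1 =
      (al1:ℂ) * pS y r1 r2 m1 m2 1 0 1 + (al2:ℂ) * pS y r1 r2 m1 m2 0 1 1 :=
    fun r1 r2 m1 m2 al1 al2 => (hN5 y hy r1 r2 m1 m2 al1 al2).2.2.1
  have hT := (hN11 y hy 1 1 1 0 (by norm_num) (by norm_num)).2
  set T : ℂ := ∑' p : (ℤ × ℤ) × (ℤ × ℤ), if InCl 1 p.1 ∧ InCl 1 p.2 then
      PowerSeries.coeff 1 (Pp (y:ℂ) (p.1, (1:ℤ)) (p.2, (0:ℤ))) else 0 with hTdef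
  have hT' : HasSum (fun m : ℤ × ℤ => pS y 1 1 m.1 m.2 0 1 1) (-T) := by
    have h := (hasSum_swap hT).neg
    refine hsc h fun m => ?_
    exact (hsw 1 1 m.2 m.1 1 0).symm
  have hPi : PiS (y:ℂ) 1 = T + T := by
    have h := hT.sub hT'
    have h1 : HasSum (fun m : ℤ × ℤ => pS y 1 1 m.1 m.2 1 (-1) 1) (T - -T) := by
      refine hsc h fun m => ?_
      rw [hli 1 1 m.1 m.2 1 (-1)]
      push_cast
      ring
    have h2 := h11.unique h1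
    rw [h2]
    ring
  have hT2 : 1 / 2 * PiS (y:ℂ) 1 = T := by rw [hPi]; ring
  refine ⟨h11, h13, ?_, ?_, ?_, ?_⟩
  · refine hsc (hasSum_swap h11).neg fun m => ?_
    exact (hsw 1 1 m.2 m.1 1 (-1)).symm
  · refine hsc (hasSum_swap h13).neg fun m => ?_
    exact (hsw 1 3 m.2 m.1 1 (-1)).symm
  · rw [hT2]
    refine hsc (hasSum_neg_arg hT) fun m => ?_
    rw [pS_five]
    have h := hng 1 1 (-m.1) (-m.2) (-1) 0
    simp only [neg_neg, neg_zero] at h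
    exact h.symm
  · rw [hT2]
    exact hT'

end Pool.Agent.Helper3.EC.D_N13
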