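import Pool.Agent.Helper23.EC.DGoalsN

set_option autoImplicit false

open MeasureTheory Filter Topology Set

namespace Pool.Agent.Helper3.EC.D_N7

open EC237

theorem abs_epz (r m : ℤ) : |epz r m| = 1 := by
  unfold epz
  split_ifs <;> simp

theorem one_le_abs {m : ℤ} (hm : m ≠ 0) : (1 : ℝ) ≤ |(m : ℝ)| := by
  have h : (1 : ℤ) ≤ |m| := Int.one_le_abs hm
  exact_mod_cast h

theorem qz_bound {y : ℝ} (hy : 0 < y) (j : ℕ) : ∃ S : ℝ, 0 ≤ S ∧ ∀ r m : ℤ, m ≠ 0 →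
    |qz y r m j| ≤ S * Real.exp (-(Real.pi * y / 2 * |(m : ℝ)|)) := by
  have hpi := Real.pi_pos
  have hs : Summable fun v : ℕ => ((v : ℝ) + 1) ^ j * Real.exp (-(Real.pi * y / 2 * ((v : ℝ) + 1))) := by
    have h1 := Real.summable_pow_mul_exp_neg_nat_mul j (r := Real.pi * y / 2) (by positivity)
    have h2 := (summable_nat_add_iff 1).mpr h1
    refine h2.congr fun v => ?_
    push_cast
    congr 2
    ring
  refine ⟨∑' v : ℕ, ((v : ℝ) + 1) ^ j * Real.exp (-(Real.pi * y / 2 * ((v : ℝ) + 1))),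
    tsum_nonneg fun v => by positivity, fun r m hm => ?_⟩
  have h1 := one_le_abs hm
  unfold qz
  rw [← Real.norm_eq_abs]
  refine tsum_of_norm_bounded (hs.hasSum.mul_right _) fun v => ?_
  rw [norm_mul, norm_mul, norm_pow, norm_pow, Real.norm_eq_abs (epz r m), abs_epz, one_pow, one_mul,
    Real.norm_eq_abs, Real.norm_eq_abs, abs_of_pos (Real.exp_pos _),
    abs_of_nonneg (by positivity : (0 : ℝ) ≤ (v : ℝ) + 1), mul_assoc (((v : ℝ) + 1) ^ j) _ _,
    ← Real.exp_add]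
  refine mul_le_mul_of_nonneg_left (Real.exp_le_exp.mpr ?_) (by positivity)
  have hv : (0 : ℝ) ≤ v := by positivity
  have h2 : ((v : ℝ) + 1 + |(m : ℝ)|) / 2 ≤ ((v : ℝ) + 1) * |(m : ℝ)| := by nlinarith
  have h3 : Real.pi * y * (((v : ℝ) + 1 + |(m : ℝ)|) / 2) ≤
      Real.pi * y * (((v : ℝ) + 1) * |(m : ℝ)|) :=
    mul_le_mul_of_nonneg_left h2 (by positivity)
  linarith

/-- Exponential bound. -/
def EB (c : ℝ) (F : ℤ → ℤ → ℤ → ℂ) : Prop :=
  ∃ C : ℝ, 0 ≤ C ∧ ∀ r m al : ℤ, |al| ≤ 1 → ‖F r m al‖ ≤ C * Real.exp (-(c * |(m : ℝ)|))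

theorem EB.mk' {c : ℝ} {F : ℤ → ℤ → ℤ → ℂ} (A B : ℝ)
    (h0 : ∀ r m al : ℤ, (m - r) % 3 ≠ 0 → F r m al = 0)
    (h1 : ∀ r al : ℤ, |al| ≤ 1 → (0 - r) % 3 = 0 → ‖F r 0 al‖ ≤ A)
    (h2 : ∀ r m al : ℤ, |al| ≤ 1 → (m - r) % 3 = 0 → m ≠ 0 →
      ‖F r m al‖ ≤ B * Real.exp (-(c * |(m : ℝ)|))) : EB c F := by
  refine ⟨max (max A B) 0, le_max_right _ _, fun r m al hal => ?_⟩
  by_cases h : (m - r) % 3 = 0
  · by_cases hm : m = 0
    · subst hm
      simp only [Int.cast_zero, abs_zero, mul_zero, neg_zero, Real.exp_zero, mul_one]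
      exact (h1 r al hal h).trans ((le_max_left _ _).trans (le_max_left _ _))
    · refine (h2 r m al hal h hm).trans ?_
      gcongr
      exact (le_max_right _ _).trans (le_max_left _ _)
  · rw [h0 r m al h, norm_zero]
    positivity

theorem al_sq {al : ℤ} (h : |al| ≤ 1) : |((al : ℝ)) ^ 2| ≤ 1 := by
  have h1 : |(al : ℝ)| ≤ 1 := by exact_mod_cast h
  rw [abs_pow]
  have := abs_nonneg (al : ℝ)
  nlinarith

theorem al_sq' {al : ℤ} (h : |al| ≤ 1) : ‖((al : ℂ)) ^ 2‖ ≤ 1 := by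
  have h1 := al_sq h
  have h2 : ((al : ℂ)) ^ 2 = ((((al : ℝ)) ^ 2 : ℝ) : ℂ) := by push_cast; rfl
  rw [h2, Complex.norm_real, Real.norm_eq_abs]
  exact h1

theorem abs_sign_le (m : ℤ) : |((m.sign : ℤ) : ℝ)| ≤ 1 := by
  rcases lt_trichotomy m 0 with h | h | h
  · rw [Int.sign_eq_neg_one_of_neg h]; simp
  · rw [h]; simp
  · rw [Int.sign_eq_one_of_pos h]; simp

theorem per {G : ℤ → ℂ} (h : ∀ r, G (r + 6) = G r) (r k : ℤ) : G (r + 6 * k) = G r := by
  induction k using Int.induction_on with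
  | zero => simp
  | succ k ih =>
    have e : r + 6 * ((k : ℤ) + 1) = (r + 6 * (k : ℤ)) + 6 := by ring
    rw [e, h, ih]
  | pred k ih =>
    have e : r + 6 * (-(k : ℤ)) = (r + 6 * (-(k : ℤ) - 1)) + 6 := by ring
    rw [← ih, e, h]

theorem per_bound {G : ℤ → ℂ} (h : ∀ r, G (r + 6) = G r) (r : ℤ) (hr : (0 - r) % 3 = 0) :
    ‖G r‖ ≤ ‖G 0‖ + ‖G 3‖ := by
  have h1 : r = 0 + 6 * (r / 6) ∨ r = 3 + 6 * (r / 6) := by omega
  rcases h1 with h1 | h1
  · rw [h1, per h]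
    linarith [norm_nonneg (G 3)]
  · rw [h1, per h]
    linarith [norm_nonneg (G 0)]

theorem thm (hN4 : EC237.N4) (hN6 : EC237.N6) : EC237.N7 := by
  intro y hy
  have hpi := Real.pi_pos
  obtain ⟨S0, hS0, q0⟩ := qz_bound hy 0
  obtain ⟨S1, hS1, q1⟩ := qz_bound hy 1
  obtain ⟨S2, hS2, q2⟩ := qz_bound hy 2
  obtain ⟨S3, hS3, q3⟩ := qz_bound hy 3
  set c : ℝ := Real.pi * y / 2 with hc
  have hc0 : 0 < c := by positivity
  have hz : ∀ r m al : ℤ, (m - r) % 3 ≠ 0 → ∀ i : ℕ, hS y r m al i = 0 ∧ dS y r m al i = 0 ∧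
      xS y r m al i = 0 := fun r m al => (hN4 y hy r m al).2.2.2.2.2.2.2.2.2.2.2
  have eh2 : EB c (fun r m al => hS y r m al 2) := by
    refine EB.mk' (‖hS y 0 0 1 2‖ + ‖hS y 3 0 1 2‖) (Real.pi ^ 3 / 2 * S2)
      (fun r m al h => (hz r m al h 2).1) ?_ ?_
    · intro r al hal hr
      have h1 : hS y r 0 al 2 = (al:ℂ) ^ 2 * hS y r 0 1 2 := (hN4 y hy r 0 al).2.2.2.2.1
      have h2 := per_bound (G := fun r => hS y r 0 1 2) (fun r => ((hN4 y hy r 0 1).2.1 2).1) r hr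
      show ‖hS y r 0 al 2‖ ≤ _
      rw [h1, norm_mul]
      have h3 := al_sq' hal
      have h4 := norm_nonneg (hS y r 0 1 2)
      have h5 := norm_nonneg ((al:ℂ) ^ 2)
      have h6 : ‖hS y r 0 1 2‖ ≤ ‖hS y 0 0 1 2‖ + ‖hS y 3 0 1 2‖ := h2
      nlinarith
    · intro r m al hal hr hm
      show ‖hS y r m al 2‖ ≤ _
      rw [((hN6 y hy r m al hr).1 hm).2.1, Complex.norm_real, Real.norm_eq_abs, abs_neg, abs_mul,
        abs_mul]
      have h1 := one_le_abs hm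
      have h2 := q2 r m hm
      have h3 := al_sq hal
      have h4 : |Real.pi ^ 3 / (2 * |(m:ℝ)|)| ≤ Real.pi ^ 3 / 2 := by
        rw [abs_of_nonneg (by positivity)]
        gcongr
        linarith
      calc |(al:ℝ) ^ 2| * |Real.pi ^ 3 / (2 * |(m:ℝ)|)| * |qz y r m 2| ≤
          1 * (Real.pi ^ 3 / 2) * (S2 * Real.exp (-(c * |(m : ℝ)|))) := by gcongr
        _ = _ := by ring
  have ed0 : EB c (fun r m al => dS y r m al 0) := by
    refine EB.mk' (Real.pi ^ 2 * y / 4) (Real.pi ^ 2 * y * S1)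
      (fun r m al h => (hz r m al h 0).2.1) ?_ ?_
    · intro r al hal hr
      show ‖dS y r 0 al 0‖ ≤ _
      rw [((hN6 y hy r 0 al hr).2 rfl).2.1, Complex.norm_real, Real.norm_eq_abs]
      split_ifs
      · rw [abs_of_nonneg (by positivity)]
        have : 0 ≤ Real.pi ^ 2 * y := by positivity
        linarith
      · rw [abs_of_nonneg (by positivity)]
    · intro r m al hal hr hm
      show ‖dS y r m al 0‖ ≤ _
      rw [((hN6 y hy r m al hr).1 hm).2.2.1, Complex.norm_real, Real.norm_eq_abs, abs_neg, abs_mul,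
        abs_of_nonneg (by positivity : (0:ℝ) ≤ Real.pi ^ 2 * y)]
      have h2 := q1 r m hm
      calc Real.pi ^ 2 * y * |qz y r m 1| ≤
          Real.pi ^ 2 * y * (S1 * Real.exp (-(c * |(m : ℝ)|))) := by gcongr
        _ = _ := by ring
  have ed2 : EB c (fun r m al => dS y r m al 2) := by
    refine EB.mk' (‖dS y 0 0 1 2‖ + ‖dS y 3 0 1 2‖) (Real.pi ^ 4 * y / 2 * S3)
      (fun r m al h => (hz r m al h 2).2.1) ?_ ?_
    · intro r al hal hr
      have h1 : dS y r 0 al 2 = (al:ℂ) ^ 2 * dS y r 0 1 2 := (hN4 y hy r 0 al).2.2.2.2.2.1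
      have h2 := per_bound (G := fun r => dS y r 0 1 2) (fun r => ((hN4 y hy r 0 1).2.1 2).2.1) r hr
      show ‖dS y r 0 al 2‖ ≤ _
      rw [h1, norm_mul]
      have h3 := al_sq' hal
      have h4 := norm_nonneg (dS y r 0 1 2)
      have h5 := norm_nonneg ((al:ℂ) ^ 2)
      have h6 : ‖dS y r 0 1 2‖ ≤ ‖dS y 0 0 1 2‖ + ‖dS y 3 0 1 2‖ := h2
      nlinarith
    · intro r m al hal hr hm
      show ‖dS y r m al 2‖ ≤ _
      rw [((hN6 y hy r m al hr).1 hm).2.2.2.1, Complex.norm_real, Real.norm_eq_abs, abs_mul,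
        abs_mul]
      have h2 := q3 r m hm
      have h3 := al_sq hal
      rw [abs_of_nonneg (by positivity : (0:ℝ) ≤ Real.pi ^ 4 * y / 2)]
      calc |(al:ℝ) ^ 2| * (Real.pi ^ 4 * y / 2) * |qz y r m 3| ≤
          1 * (Real.pi ^ 4 * y / 2) * (S3 * Real.exp (-(c * |(m : ℝ)|))) := by gcongr
        _ = _ := by ring
  have ex1 : EB c (fun r m al => xS y r m al 1) := by
    refine EB.mk' 0 (y * Real.pi ^ 3 * S2)
      (fun r m al h => (hz r m al h 1).2.2) ?_ ?_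
    · intro r al hal hr
      show ‖xS y r 0 al 1‖ ≤ _
      rw [((hN6 y hy r 0 al hr).2 rfl).2.2, norm_zero]
    · intro r m al hal hr hm
      show ‖xS y r m al 1‖ ≤ _
      rw [((hN6 y hy r m al hr).1 hm).2.2.2.2, Complex.norm_real, Real.norm_eq_abs, abs_mul,
        abs_mul, abs_mul, abs_mul, abs_of_pos hy,
        abs_of_nonneg (by positivity : (0:ℝ) ≤ Real.pi ^ 3)]
      have h2 := q2 r m hm
      have h3 : |(al : ℝ)| ≤ 1 := by exact_mod_cast hal
      have h4 := abs_sign_le m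
      calc |(al:ℝ)| * |((m.sign : ℤ) : ℝ)| * y * Real.pi ^ 3 * |qz y r m 2| ≤
          1 * 1 * y * Real.pi ^ 3 * (S2 * Real.exp (-(c * |(m : ℝ)|))) := by gcongr
        _ = _ := by ring
  have eh0 : ∃ C : ℝ, 0 ≤ C ∧ ∀ r m al : ℤ, (m - r) % 3 = 0 → m ≠ 0 →
      ‖hS y r m al 0 - ((Real.pi / (2 * |(m:ℝ)|) : ℝ) : ℂ)‖ ≤ C * Real.exp (-(c * |(m:ℝ)|)) := by
    refine ⟨Real.pi * S0, by positivity, fun r m al hr hm => ?_⟩
    rw [((hN6 y hy r m al hr).1 hm).1, ← Complex.ofReal_sub, Complex.norm_real, Real.norm_eq_abs]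
    have h1 := one_le_abs hm
    have h2 := q0 r m hm
    have h3 : Real.pi / (2 * |(m:ℝ)|) * (1 + 2 * qz y r m 0) - Real.pi / (2 * |(m:ℝ)|) =
        Real.pi / |(m:ℝ)| * qz y r m 0 := by
      field_simp
      ring
    rw [h3, abs_mul, abs_of_nonneg (by positivity : (0:ℝ) ≤ Real.pi / |(m:ℝ)|)]
    calc Real.pi / |(m:ℝ)| * |qz y r m 0| ≤
        Real.pi / 1 * (S0 * Real.exp (-(c * |(m : ℝ)|))) := by gcongr
      _ = _ := by ring
  have eh : ∃ C : ℝ, 0 ≤ C ∧ ∀ r m al : ℤ, ‖hS y r m al 0‖ ≤ C / (1 + |(m:ℝ)|) := by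
    obtain ⟨D, hD, hD'⟩ := eh0
    refine ⟨Real.pi + 2 * D * (1 + 1 / c) + Real.pi ^ 2 * y / 4, by positivity,
      fun r m al => ?_⟩
    have habs := abs_nonneg (m:ℝ)
    by_cases h : (m - r) % 3 = 0
    · by_cases hm : m = 0
      · subst hm
        rw [((hN6 y hy r 0 al h).2 rfl).1, Complex.norm_real, Real.norm_eq_abs]
        simp only [Int.cast_zero, abs_zero, add_zero, div_one]
        have h5 : 0 ≤ Real.pi + 2 * D * (1 + 1 / c) := by positivity
        split_ifs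
        · rw [abs_of_nonneg (by positivity)]
          have : 0 ≤ Real.pi ^ 2 * y := by positivity
          linarith
        · rw [abs_of_nonneg (by positivity)]
          linarith
      · have h1 := one_le_abs hm
        have h2 := hD' r m al h hm
        have h3 : ‖hS y r m al 0‖ ≤ ‖hS y r m al 0 - ((Real.pi / (2 * |(m:ℝ)|) : ℝ) : ℂ)‖ +
            ‖((Real.pi / (2 * |(m:ℝ)|) : ℝ) : ℂ)‖ := by
          simpa using norm_add_le (hS y r m al 0 - ((Real.pi / (2 * |(m:ℝ)|) : ℝ) : ℂ))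
            ((Real.pi / (2 * |(m:ℝ)|) : ℝ) : ℂ)
        rw [Complex.norm_real, Real.norm_eq_abs, abs_of_nonneg (by positivity :
          (0:ℝ) ≤ Real.pi / (2 * |(m:ℝ)|))] at h3
        have h4 : Real.pi / (2 * |(m:ℝ)|) ≤ Real.pi / (1 + |(m:ℝ)|) := by
          gcongr
          linarith
        have h5 : Real.exp (-(c * |(m:ℝ)|)) ≤ 2 * (1 + 1 / c) / (1 + |(m:ℝ)|) := by
          rw [le_div_iff₀ (by positivity)]
          have h6 : c * |(m:ℝ)| + 1 ≤ Real.exp (c * |(m:ℝ)|) := Real.add_one_le_exp _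
          have h7 : Real.exp (-(c * |(m:ℝ)|)) * Real.exp (c * |(m:ℝ)|) = 1 := by
            rw [← Real.exp_add]; simp
          have h8 := Real.exp_pos (-(c * |(m:ℝ)|))
          have h9 : 1 + |(m:ℝ)| ≤ (1 + 1 / c) * (c * |(m:ℝ)| + 1) := by
            have : (1 + 1 / c) * (c * |(m:ℝ)| + 1) = c * |(m:ℝ)| + 1 + |(m:ℝ)| + 1 / c := by
              field_simp
              ring
            rw [this]
            have : 0 < 1 / c := by positivity
            have : 0 ≤ c * |(m:ℝ)| := by positivity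
            linarith
          calc Real.exp (-(c * |(m:ℝ)|)) * (1 + |(m:ℝ)|) ≤
              Real.exp (-(c * |(m:ℝ)|)) * ((1 + 1 / c) * (c * |(m:ℝ)| + 1)) := by gcongr
            _ ≤ Real.exp (-(c * |(m:ℝ)|)) * ((1 + 1 / c) * Real.exp (c * |(m:ℝ)|)) := by gcongr
            _ = (1 + 1 / c) * (Real.exp (-(c * |(m:ℝ)|)) * Real.exp (c * |(m:ℝ)|)) := by ring
            _ = 1 + 1 / c := by rw [h7, mul_one]
            _ ≤ 2 * (1 + 1 / c) := by
              have : 0 < 1 / c := by positivity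
              linarith
        calc ‖hS y r m al 0‖ ≤ D * (2 * (1 + 1 / c) / (1 + |(m:ℝ)|)) + Real.pi / (1 + |(m:ℝ)|) := by
              have := mul_le_mul_of_nonneg_left h5 hD
              linarith
          _ = (Real.pi + 2 * D * (1 + 1 / c)) / (1 + |(m:ℝ)|) := by ring
          _ ≤ _ := by
            have : 0 ≤ Real.pi ^ 2 * y / 4 := by positivity
            exact div_le_div_of_nonneg_right (by linarith) (by positivity)
    · rw [(hz r m al h 0).1, norm_zero]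
      positivity
  obtain ⟨C1, hC1, b1⟩ := eh
  obtain ⟨C2, hC2, b2⟩ := eh0
  obtain ⟨C3, hC3, b3⟩ := eh2
  obtain ⟨C4, hC4, b4⟩ := ed0
  obtain ⟨C5, hC5, b5⟩ := ed2
  obtain ⟨C6, hC6, b6⟩ := ex1
  refine ⟨C1 + C2 + C3 + C4 + C5 + C6 + 1, c, by positivity, hc0, fun r m al hal => ?_⟩
  refine ⟨(b1 r m al).trans ?_, fun h hm => (b2 r m al h hm).trans ?_, (b3 r m al hal).trans ?_,
    (b4 r m al hal).trans ?_, (b5 r m al hal).trans ?_, (b6 r m al hal).trans ?_⟩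
  all_goals
    gcongr
    linarith

end Pool.Agent.Helper3.EC.D_N7
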