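import Pool.Agent.Helper38.EC.Goals

set_option autoImplicit false

open Filter Topology Set Complex

namespace Pool.Agent.Helper3.EC.I_SERA

open EC237 EC237.PI

/-- Coefficients of entire functions. -/
def Ent (a : ℕ → ℂ) : Prop := ∀ r : ℝ, 0 ≤ r → Summable fun k : ℕ => ‖a k‖ * r ^ k

/-- The series. -/
noncomputable def ser (a : ℕ → ℂ) (s : ℂ) : ℂ := ∑' k : ℕ, a k * s ^ k

/-- Coefficients of the derivative. -/
def dd (a : ℕ → ℂ) : ℕ → ℂ := fun k => ((k : ℂ) + 1) * a (k + 1)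

theorem Ent.of_le {a : ℕ → ℂ} (h : ∀ k, ‖a k‖ ≤ 1 / (k.factorial : ℝ)) : Ent a := by
  intro r hr
  refine Summable.of_nonneg_of_le (fun k => by positivity) (fun k => ?_)
    (Real.summable_pow_div_factorial r)
  calc ‖a k‖ * r ^ k ≤ 1 / (k.factorial : ℝ) * r ^ k := by
        gcongr
        exact h k
    _ = r ^ k / (k.factorial : ℝ) := by ring

theorem Ent.summable {a : ℕ → ℂ} (h : Ent a) (s : ℂ) : Summable fun k : ℕ => a k * s ^ k := by
  refine Summable.of_norm ?_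
  have := h ‖s‖ (norm_nonneg s)
  simpa [norm_mul, norm_pow] using this

theorem nat_le_two_pow (k : ℕ) : (k : ℝ) ≤ 2 ^ k := by
  exact_mod_cast (Nat.lt_two_pow_self (n := k)).le

theorem Ent.dd {a : ℕ → ℂ} (h : Ent a) : Ent (dd a) := by
  intro r hr
  have hR : (0 : ℝ) ≤ 2 * max r 1 := by positivity
  have h1 := (summable_nat_add_iff 1).mpr (h (2 * max r 1) hR)
  refine Summable.of_nonneg_of_le (fun k => by positivity) (fun k => ?_) h1
  have h2 : ‖I_SERA.dd a k‖ = ((k : ℝ) + 1) * ‖a (k + 1)‖ := by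
    rw [I_SERA.dd, norm_mul]
    congr 1
    have : ((k : ℂ) + 1) = ((k + 1 : ℕ) : ℂ) := by push_cast; ring
    rw [this, Complex.norm_natCast]
    push_cast
    ring
  rw [h2]
  have h3 : ((k : ℝ) + 1) ≤ 2 ^ (k + 1) := by
    have := nat_le_two_pow (k + 1)
    push_cast at this
    exact this
  have h4 : r ^ k ≤ (max r 1) ^ (k + 1) := by
    calc r ^ k ≤ (max r 1) ^ k := by gcongr; exact le_max_left _ _
      _ ≤ (max r 1) ^ (k + 1) := pow_le_pow_right₀ (le_max_right _ _) (Nat.le_succ k)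
  calc ((k : ℝ) + 1) * ‖a (k + 1)‖ * r ^ k = ‖a (k + 1)‖ * (((k : ℝ) + 1) * r ^ k) := by ring
    _ ≤ ‖a (k + 1)‖ * (2 ^ (k + 1) * (max r 1) ^ (k + 1)) := by gcongr
    _ = ‖a (k + 1)‖ * (2 * max r 1) ^ (k + 1) := by rw [mul_pow]

theorem hasDerivAt_ser {a : ℕ → ℂ} (h : Ent a) (s : ℂ) :
    HasDerivAt (ser a) (ser (dd a) s) s := by
  have hR : (0 : ℝ) ≤ ‖s‖ + 1 := by positivity
  have hu : Summable fun k : ℕ => ‖a k‖ * (k * (‖s‖ + 1) ^ (k - 1)) := by
    rw [← summable_nat_add_iff 1]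
    have h1 := h.dd (‖s‖ + 1) hR
    refine h1.congr fun k => ?_
    have h2 : ‖dd a k‖ = ((k : ℝ) + 1) * ‖a (k + 1)‖ := by
      rw [dd, norm_mul]
      congr 1
      have : ((k : ℂ) + 1) = ((k + 1 : ℕ) : ℂ) := by push_cast; ring
      rw [this, Complex.norm_natCast]
      push_cast
      ring
    rw [h2]
    push_cast
    ring_nf
  have h1 := hasDerivAt_tsum_of_isPreconnected (𝕜 := ℂ) (F := ℂ)
    (g := fun (k : ℕ) (z : ℂ) => a k * z ^ k)
    (g' := fun (k : ℕ) (z : ℂ) => a k * (k * z ^ (k - 1)))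
    (t := Metric.ball (0 : ℂ) (‖s‖ + 1)) (y₀ := s) (y := s) hu Metric.isOpen_ball
    (convex_ball (0 : ℂ) (‖s‖ + 1)).isPreconnected
    (fun k z _ => (hasDerivAt_pow k z).const_mul (a k))
    (fun k z hz => by
      have hz' : ‖z‖ ≤ ‖s‖ + 1 := (by simpa using hz : ‖z‖ < ‖s‖ + 1).le
      rw [norm_mul, norm_mul, norm_pow, Complex.norm_natCast]
      gcongr)
    (by simp) (h.summable s) (by simp)
  have h2 : (∑' k : ℕ, a k * (k * s ^ (k - 1))) = ser (dd a) s := by
    have hs : Summable fun k : ℕ => a k * (k * s ^ (k - 1)) := by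
      rw [← summable_nat_add_iff 1]
      refine (h.dd.summable s).congr fun k => ?_
      simp only [dd, Nat.add_sub_cancel]
      push_cast
      ring
    rw [hs.tsum_eq_zero_add]
    simp only [Nat.cast_zero, zero_mul, mul_zero, zero_add, ser]
    refine tsum_congr fun k => ?_
    simp only [dd, Nat.add_sub_cancel]
    push_cast
    ring
  rw [h2] at h1
  exact h1

theorem ser_add {a b : ℕ → ℂ} (ha : Ent a) (hb : Ent b) (s : ℂ) :
    ser a s + ser b s = ser (fun k => a k + b k) s := by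
  rw [ser, ser, ser, ← (ha.summable s).tsum_add (hb.summable s)]
  refine tsum_congr fun k => ?_
  ring

theorem ser_ode {a : ℕ → ℂ} (h : Ent a) (s : ℂ) :
    s * ser (dd (dd a)) s + ser (dd a) s = ser (fun k => ((k : ℂ) + 1) ^ 2 * a (k + 1)) s := by
  have h1 : s * ser (dd (dd a)) s = ∑' k : ℕ, ((k : ℂ) * ((k : ℂ) + 1) * a (k + 1)) * s ^ k := by
    have hs : Summable fun k : ℕ => ((k : ℂ) * ((k : ℂ) + 1) * a (k + 1)) * s ^ k := by
      rw [← summable_nat_add_iff 1]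
      refine ((h.dd.dd.summable s).mul_left s).congr fun k => ?_
      simp only [dd]
      push_cast
      ring
    rw [hs.tsum_eq_zero_add, ser, ← tsum_mul_left]
    simp only [Nat.cast_zero, zero_mul, zero_add]
    refine tsum_congr fun k => ?_
    simp only [dd]
    push_cast
    ring
  have hs : Summable fun k : ℕ => ((k : ℂ) * ((k : ℂ) + 1) * a (k + 1)) * s ^ k := by
    rw [← summable_nat_add_iff 1]
    refine ((h.dd.dd.summable s).mul_left s).congr fun k => ?_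
    simp only [dd]
    push_cast
    ring
  rw [h1, ser, ser, ← hs.tsum_add (h.dd.summable s)]
  refine tsum_congr fun k => ?_
  simp only [dd]
  ring

/-- The function `z ↦ F(z²/4)`. -/
theorem hasDerivAt_comp {a : ℕ → ℂ} (h : Ent a) (z : ℂ) :
    HasDerivAt (fun w : ℂ => ser a (w ^ 2 / 4)) (ser (dd a) (z ^ 2 / 4) * (z / 2)) z := by
  have h1 : HasDerivAt (fun w : ℂ => w ^ 2 / 4) (z / 2) z := by
    have h2 := (hasDerivAt_pow 2 z).div_const 4
    refine h2.congr_deriv ?_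
    norm_num
    ring
  exact (hasDerivAt_ser h (z ^ 2 / 4)).comp z h1

theorem hasDerivAt_comp2 {a : ℕ → ℂ} (h : Ent a) (z : ℂ) :
    HasDerivAt (fun w : ℂ => w * deriv (fun w : ℂ => ser a (w ^ 2 / 4)) w)
      (z * ser (fun k => ((k : ℂ) + 1) ^ 2 * a (k + 1)) (z ^ 2 / 4)) z := by
  have h1 : (fun w : ℂ => w * deriv (fun w : ℂ => ser a (w ^ 2 / 4)) w) =
      fun w : ℂ => w ^ 2 / 2 * ser (dd a) (w ^ 2 / 4) := by
    funext w
    rw [(hasDerivAt_comp h w).deriv]
    ring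
  rw [h1]
  have h2 : HasDerivAt (fun w : ℂ => w ^ 2 / 2) z z := by
    have h3 := (hasDerivAt_pow 2 z).div_const 2
    refine h3.congr_deriv ?_
    norm_num
  refine (h2.mul (hasDerivAt_comp h.dd z)).congr_deriv ?_
  rw [← ser_ode h]
  ring

/-- Coefficients of `Ic`. -/
noncomputable def ca (k : ℕ) : ℂ := 1 / (k.factorial : ℂ) ^ 2

/-- Coefficients of `Sc`. -/
noncomputable def cs (k : ℕ) : ℂ := (harmonic k : ℂ) / (k.factorial : ℂ) ^ 2

theorem ent_ca : Ent ca := by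
  refine Ent.of_le fun k => ?_
  have hk : (1 : ℝ) ≤ (k.factorial : ℝ) := by exact_mod_cast Nat.one_le_iff_ne_zero.mpr k.factorial_ne_zero
  rw [ca, norm_div, norm_one, norm_pow, Complex.norm_natCast]
  refine one_div_le_one_div_of_le (by linarith) ?_
  nlinarith

theorem harmonic_bound (k : ℕ) : 0 ≤ harmonic k ∧ harmonic k ≤ k := by
  induction k with
  | zero => simp
  | succ n ih =>
    rw [harmonic_succ]
    have h1 : (0 : ℚ) ≤ ((n + 1 : ℕ) : ℚ)⁻¹ := by positivity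
    have h2 : ((n + 1 : ℕ) : ℚ)⁻¹ ≤ 1 := by
      refine inv_le_one_of_one_le₀ ?_
      push_cast
      have : (0 : ℚ) ≤ n := by positivity
      linarith
    constructor
    · linarith [ih.1]
    · push_cast at h1 h2 ⊢
      linarith [ih.2]

theorem ent_cs : Ent cs := by
  refine Ent.of_le fun k => ?_
  have hk : (1 : ℝ) ≤ (k.factorial : ℝ) := by exact_mod_cast Nat.one_le_iff_ne_zero.mpr k.factorial_ne_zero
  have h1 : ‖((harmonic k : ℚ) : ℂ)‖ ≤ (k.factorial : ℝ) := by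
    have h2 : ((harmonic k : ℚ) : ℂ) = (((harmonic k : ℚ) : ℝ) : ℂ) := by push_cast; rfl
    rw [h2, Complex.norm_real, Real.norm_eq_abs]
    have h3 := harmonic_bound k
    have h4 : (0 : ℝ) ≤ ((harmonic k : ℚ) : ℝ) := by exact_mod_cast h3.1
    have h5 : ((harmonic k : ℚ) : ℝ) ≤ (k : ℝ) := by exact_mod_cast h3.2
    have h6 : (k : ℝ) ≤ (k.factorial : ℝ) := by exact_mod_cast Nat.self_le_factorial k
    rw [abs_of_nonneg h4]
    linarith
  rw [cs, norm_div, norm_pow, Complex.norm_natCast]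
  calc ‖((harmonic k : ℚ) : ℂ)‖ / (k.factorial : ℝ) ^ 2
      ≤ (k.factorial : ℝ) / (k.factorial : ℝ) ^ 2 := by gcongr
    _ = 1 / (k.factorial : ℝ) := by field_simp

theorem Ic_eq : Ic = fun z : ℂ => ser ca (z ^ 2 / 4) := by
  funext z
  rw [Ic, ser]
  refine tsum_congr fun k => ?_
  rw [ca]
  ring

theorem Sc_eq : Sc = fun z : ℂ => ser cs (z ^ 2 / 4) := by
  funext z
  rw [Sc, ser]
  refine tsum_congr fun k => ?_
  rw [cs]
  ring

theorem ca_rec (k : ℕ) : ((k : ℂ) + 1) ^ 2 * ca (k + 1) = ca k := by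
  have h1 : ((k : ℂ) + 1) ≠ 0 := by exact_mod_cast Nat.succ_ne_zero k
  have h2 : (k.factorial : ℂ) ≠ 0 := by exact_mod_cast k.factorial_ne_zero
  rw [ca, ca, Nat.factorial_succ]
  push_cast
  field_simp

theorem cs_rec (k : ℕ) : ((k : ℂ) + 1) ^ 2 * cs (k + 1) = cs k + dd ca k := by
  have h1 : ((k : ℂ) + 1) ≠ 0 := by exact_mod_cast Nat.succ_ne_zero k
  have h2 : (k.factorial : ℂ) ≠ 0 := by exact_mod_cast k.factorial_ne_zero
  rw [cs, cs, dd, ca, Nat.factorial_succ, harmonic_succ]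
  push_cast
  field_simp

theorem thm : EC237.PI.G_SERA := by
  refine ⟨?_, ?_, ?_, ?_⟩
  · rw [Ic_eq]
    exact fun z => (hasDerivAt_comp ent_ca z).differentiableAt
  · rw [Sc_eq]
    exact fun z => (hasDerivAt_comp ent_cs z).differentiableAt
  · intro z
    rw [Ic_eq]
    have h := hasDerivAt_comp2 ent_ca z
    have h1 : (fun k : ℕ => ((k : ℂ) + 1) ^ 2 * ca (k + 1)) = ca := funext ca_rec
    rw [h1] at h
    exact h
  · intro z
    rw [Ic_eq, Sc_eq]
    have h := hasDerivAt_comp2 ent_cs z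
    have h1 : (fun k : ℕ => ((k : ℂ) + 1) ^ 2 * cs (k + 1)) = fun k => cs k + dd ca k :=
      funext cs_rec
    rw [h1, ← ser_add ent_cs ent_ca.dd] at h
    refine h.congr_deriv ?_
    rw [(hasDerivAt_comp ent_ca z).deriv]
    ring

end Pool.Agent.Helper3.EC.I_SERA
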